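import Pool.Agent.MP_670f9a_nt.H13.Spec

/-!
The congruence modulo four and the truncated square root.
-/

namespace Pool.Agent.MP_670f9a_nt.H81

open Polynomial Pool.Agent.MP_670f9a_nt.H13

theorem even_odd {R : Type} [CommRing R] (G : R[X]) :
    ∃ U V : R[X], G = expand R 2 U + X * expand R 2 V := by
  induction G using Polynomial.induction_on' with
  | add p q hp hq =>
    obtain ⟨U, V, rfl⟩ := hp
    obtain ⟨U', V', rfl⟩ := hq
    exact ⟨U + U', V + V', by simp only [map_add]; ring⟩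
  | monomial n a =>
    obtain ⟨k, rfl | rfl⟩ := Nat.even_or_odd' n
    · exact ⟨C a * X ^ k, 0, by
        simp only [map_mul, map_pow, expand_C, expand_X, map_zero, ← C_mul_X_pow_eq_monomial]
        ring⟩
    · exact ⟨0, C a * X ^ k, by
        simp only [map_mul, map_pow, expand_C, expand_X, map_zero, ← C_mul_X_pow_eq_monomial]
        ring⟩

theorem expand_comp {R : Type} [CommRing R] (U : R[X]) :
    (expand R 2 U).comp (-X) = expand R 2 U := by
  rw [expand_eq_comp_X_pow, comp_assoc]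
  simp

theorem comp_neg {R : Type} [CommRing R] (U : R[X]) : ∃ w, U.comp (-X) = U + 2 * w := by
  obtain ⟨w, hw⟩ := sub_dvd_eval_sub (-X) X (U.map C)
  rw [← eval₂_eq_eval_map, ← eval₂_eq_eval_map, eval₂_C_X] at hw
  exact ⟨-X * w, by rw [comp]; linear_combination hw⟩

theorem frob1 (a : ℤ[X]) : ∃ w, expand ℤ 2 a = a ^ 2 + 2 * w := by
  induction a using Polynomial.induction_on' with
  | add p q hp hq =>
    obtain ⟨u, hu⟩ := hp
    obtain ⟨v, hv⟩ := hq
    exact ⟨u + v - p * q, by rw [map_add, hu, hv]; ring⟩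
  | monomial n c =>
    obtain ⟨k, hk⟩ := Int.even_mul_pred_self c
    have : (C c : ℤ[X]) * (C c - 1) = C k + C k := by
      rw [← C_1, ← map_sub, ← map_mul, hk, map_add]
    refine ⟨-C k * X ^ (2 * n), ?_⟩
    simp only [map_mul, map_pow, expand_C, expand_X, ← C_mul_X_pow_eq_monomial]
    linear_combination (-X ^ (2 * n)) * this

theorem fr_add (p q : ℤ[X][X]) : fr (p + q) = fr p + fr q := Polynomial.map_add _

theorem frob2 (f : ℤ[X][X]) : ∃ w, expand ℤ[X] 2 (fr f) = f ^ 2 + 2 * w := by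
  induction f using Polynomial.induction_on' with
  | add p q hp hq =>
    obtain ⟨u, hu⟩ := hp
    obtain ⟨v, hv⟩ := hq
    exact ⟨u + v - p * q, by rw [fr_add, map_add, hu, hv]; ring⟩
  | monomial n c =>
    obtain ⟨k, hk⟩ := frob1 c
    refine ⟨C k * X ^ (2 * n), ?_⟩
    have : fr (monomial n c) = monomial n (expand ℤ 2 c) := Polynomial.map_monomial _
    rw [this, hk]
    simp only [map_mul, map_pow, map_add, expand_C, expand_X, ← C_mul_X_pow_eq_monomial,
      map_ofNat]
    ring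

theorem cong (h : SGr) (G : ℤ[X][X]) : ∃ H, PA G = PB G + 4 * H := by
  obtain ⟨U, V, hG⟩ := even_odd G
  have e1 : gr G = U ^ 2 - X * V ^ 2 := by
    refine expand_injective two_pos ?_
    rw [h.1 G, hG]
    simp only [add_comp, mul_comp, X_comp, expand_comp, map_sub, map_mul, map_pow, expand_X]
    ring
  have e2 : fr G = expand ℤ[X] 2 (fr U) + X * expand ℤ[X] 2 (fr V) := by
    rw [hG]
    simp only [fr, Polynomial.map_add, Polynomial.map_mul, map_X, map_expand]
  obtain ⟨a, ha⟩ := comp_neg U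
  obtain ⟨b, hb⟩ := comp_neg V
  obtain ⟨c, hc⟩ := frob2 U
  obtain ⟨d, hd⟩ := frob2 V
  refine ⟨(U ^ 2 - X * V ^ 2) * (U * a + a ^ 2 + X * (V * b + b ^ 2)) -
    (U ^ 2 * c + c ^ 2 - X ^ 2 * (V ^ 2 * d + d ^ 2)), ?_⟩
  rw [PA, PB, e1, e2]
  simp only [add_comp, sub_comp, mul_comp, pow_comp, X_comp, expand_comp]
  rw [ha, hb, hc, hd]
  ring

theorem coeff_comp_neg {R : Type} [CommRing R] (U : R[X]) : (U.comp (-X)).coeff 0 = U.coeff 0 := by
  simp [coeff_zero_eq_eval_zero, eval_comp]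

theorem ssqrt : SGr → SSqrt := by
  intro h G M hG
  obtain ⟨H, hH⟩ := cong h G
  have hA : (PA G).coeff 0 = 1 := by
    rw [PA, mul_coeff_zero, coeff_comp_neg, h.2.1 G hG, one_mul]
  have hB : (PB G).coeff 0 = 1 := by
    rw [PB, mul_coeff_zero, coeff_comp_neg, fr, coeff_map, hG, map_one, one_mul]
  have hH0 : X ∣ H := by
    rw [X_dvd_iff]
    have := congrArg (fun p => p.coeff 0) hH
    simp only [hA, coeff_add, hB, mul_coeff_zero, coeff_ofNat_zero] at this
    have h4 : (4 : ℤ[X]) * H.coeff 0 = 0 := by linear_combination -this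
    exact (mul_eq_zero.1 h4).resolve_left (by norm_num)
  have hP : X ∣ 1 - PB G := by
    rw [X_dvd_iff, coeff_sub, hB, coeff_one_zero, sub_self]
  have key : ∀ n : ℕ, ∃ V, X ∣ V ∧ X ^ (n + 1) ∣ H * PB G - V * PB G - V ^ 2 := by
    intro n
    induction n with
    | zero => exact ⟨0, dvd_zero _, by simpa using hH0.mul_right _⟩
    | succ n ih =>
      obtain ⟨V, hV, hE⟩ := ih
      have hE1 : X ∣ H * PB G - V * PB G - V ^ 2 := (dvd_pow_self X n.succ_ne_zero).trans hE
      refine ⟨V + (H * PB G - V * PB G - V ^ 2), hV.add hE1, ?_⟩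
      have := mul_dvd_mul hE ((hP.sub (hV.mul_left 2)).sub hE1)
      rw [← pow_succ] at this
      exact this.trans (dvd_of_eq (by ring))
  obtain ⟨V, hV, hE⟩ := key M
  refine ⟨PB G + 2 * V, ?_, ?_⟩
  · rw [coeff_add, hB, mul_coeff_zero, X_dvd_iff.1 hV, mul_zero, add_zero]
  · rw [hH]
    exact (((pow_dvd_pow X M.le_succ).trans hE).mul_left (-4)).trans (dvd_of_eq (by ring))

end Pool.Agent.MP_670f9a_nt.H81
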